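import Mathlib
import Pool.Agent.helper529_fat.Polytope2

/-!
# Fatness of 4-polytopes that are edge preserving projections of higher dimensional polytopes
-/

set_option autoImplicit false

namespace Pool.Agent.Results.MP_bbcf47_co.EdgePreserving

open Pool.Agent.helper529_fat

/-- the fatness of a 4-polytope `P` -/
noncomputable def fatness (P : Set (EuclideanSpace ℝ (Fin 4))) : ℝ :=
  ((fv P 1 : ℝ) + fv P 2 - 20) / ((fv P 0 : ℝ) + fv P 3 - 10)

/-- Let `Q = conv S` be a full-dimensional polytope in `ℝⁿ`, `n ≥ 5`, and let `P = π(Q)` be a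
4-dimensional projection of `Q` with the same number of vertices and the same number of edges as `Q`.
Let `μ` be the number of pairs of edges of `Q` with a common vertex which do not lie in a common
2-face of `Q`, and `τ` the number of triangular 2-faces of `Q` that are not mapped to 2-faces of `P`.
Then `2 f₁(P) + 2 n² ≤ 8 f₃(P) + 4 f₀(P) + 3 μ + 2 τ`. Hence, if `3 μ + 2 τ ≤ θ f₁(P)` with
`0 ≤ θ < 2`, then the fatness of `P` is less than `(18 - θ) / (2 - θ)`. In particular, if `Q` is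
simple and has no face of dimension `m + 2` that is a simplex, `m = 0, 1, 2`, then the fatness of `P`
is less than `(27 - m) / (3 - m)`. -/
theorem result (n : ℕ) (hn : 5 ≤ n) (S : Finset (EuclideanSpace ℝ (Fin n)))
    (Q : Set (EuclideanSpace ℝ (Fin n)))
    (hQS : Q = convexHull ℝ (S : Set (EuclideanSpace ℝ (Fin n))))
    (π : EuclideanSpace ℝ (Fin n) →ₗ[ℝ] EuclideanSpace ℝ (Fin 4))
    (P : Set (EuclideanSpace ℝ (Fin 4))) (hPQ : P = π '' Q)
    (hQ : (interior Q).Nonempty) (hP : (interior P).Nonempty)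
    (h0 : fv P 0 = fv Q 0) (h1 : fv P 1 = fv Q 1) :
    10 < fv P 0 + fv P 3 ∧
    2 * fv P 1 + 2 * n ^ 2 ≤
      8 * fv P 3 + 4 * fv P 0 + 3 * (MissingPairs Q).ncard + 2 * (LostTri Q π).ncard ∧
    (∀ θ : ℝ, 0 ≤ θ → θ < 2 →
      3 * ((MissingPairs Q).ncard : ℝ) + 2 * ((LostTri Q π).ncard : ℝ) ≤ θ * (fv P 1 : ℝ) →
      fatness P < (18 - θ) / (2 - θ)) ∧
    (∀ m : ℕ, m ≤ 2 → Simple Q n → (∀ F, IsFace Q (m + 2) F → nv Q F ≠ m + 3) →
      fatness P < (27 - (m : ℝ)) / (3 - (m : ℝ))) := by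
  subst hPQ hQS
  have h := main2 (E' := EuclideanSpace ℝ (Fin 4)) (by rw [finrank_euclideanSpace_fin]; exact hn)
    (by rw [finrank_euclideanSpace_fin]) S π hQ hP h0 h1
  rw [finrank_euclideanSpace_fin] at h
  obtain ⟨g1, g2, g3, g4⟩ := h
  have g2' : (10 : ℝ) < (fv (π '' convexHull ℝ (S : Set (EuclideanSpace ℝ (Fin n)))) 0 : ℝ) +
      fv (π '' convexHull ℝ (S : Set (EuclideanSpace ℝ (Fin n)))) 3 := by exact_mod_cast g2
  refine ⟨g2, g1, ?_, ?_⟩
  · intro θ hθ0 hθ2 hθ
    have := g3 θ hθ0 hθ2 hθ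
    rw [fatness, div_lt_div_iff₀ (by linarith) (by linarith)]
    linarith
  · intro m hm hs hno
    have := g4 m hm hs hno
    have hm' : (m : ℝ) ≤ 2 := by exact_mod_cast hm
    rw [fatness, div_lt_div_iff₀ (by linarith) (by linarith)]
    linarith

end Pool.Agent.Results.MP_bbcf47_co.EdgePreserving
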